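import Pool.Agent.H261R2.CM.K6

/-!
# An exhaustion of Boyd's set by closed sets

`L K` is the set of Mahler measures of the nonzero integer polynomials `F` (in any number of
variables) having a coprime companion `G` with `∫ log max(|F|, |G|) ≤ K`, that is with
`M(F + u G) ≤ exp K` for a new variable `u`.  Every `L K` is closed, the `L K` increase to the set
of all Mahler measures, and `L K` contains the measures at most `exp K` of nonreciprocal
polynomials, the measures of the polynomials of length at most `exp K`, and the measures at most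
`exp K / 2 ^ m` of the polynomials of degree at most `m` in one of the variables (without factor
free of this variable).
-/

set_option autoImplicit false

namespace Pool.Agent.Results.MP_6d22ea_nt.ClosedExhaustion

noncomputable section

/-- Value of an integer polynomial in `k` variables at the torus point
`(exp (2 π i t_1), …, exp (2 π i t_k))`. -/
def value {k : ℕ} (F : MvPolynomial (Fin k) ℤ) (t : Fin k → ℝ) : ℂ :=
  MvPolynomial.eval (fun j : Fin k => Complex.exp (2 * (Real.pi : ℂ) * Complex.I * ((t j : ℝ) : ℂ)))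
    (MvPolynomial.map (Int.castRingHom ℂ) F)

/-- The Mahler measure of an integer polynomial in `k` variables. -/
def mahler {k : ℕ} (F : MvPolynomial (Fin k) ℤ) : ℝ :=
  Real.exp (∫ t in Set.Icc (0 : Fin k → ℝ) 1, Real.log ‖value F t‖)

/-- The integral of `log max(|F|, |G|)` over the torus (the logarithmic Mahler measure of `F + u G`
with a new variable `u`). -/
def pairHeight {k : ℕ} (F G : MvPolynomial (Fin k) ℤ) : ℝ :=
  ∫ t in Set.Icc (0 : Fin k → ℝ) 1, Real.log (max ‖value F t‖ ‖value G t‖)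

/-- The reciprocal polynomial `z_1^{d_1} ⋯ z_k^{d_k} F(1/z_1, …, 1/z_k)`, where `d_i` is the degree
of `F` in `z_i`. -/
def reciprocal {k : ℕ} (F : MvPolynomial (Fin k) ℤ) : MvPolynomial (Fin k) ℤ :=
  ∑ s ∈ F.support, MvPolynomial.monomial
    (Finsupp.equivFunOnFinite.symm fun i => F.degreeOf i - s i) (F.coeff s)

/-- The Mahler measures of the nonzero polynomials `F` having a coprime companion `G ≠ 0` with
`∫ log max(|F|, |G|) ≤ K`. -/
def L (K : ℝ) : Set ℝ :=
  {x : ℝ | ∃ k : ℕ, 1 ≤ k ∧ ∃ F G : MvPolynomial (Fin k) ℤ, F ≠ 0 ∧ G ≠ 0 ∧ IsRelPrime F G ∧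
    pairHeight F G ≤ K ∧ x = mahler F}

theorem result :
    (∀ K : ℝ, IsClosed (L K)) ∧
    (∀ K K' : ℝ, K ≤ K' → L K ⊆ L K') ∧
    (⋃ K : ℝ, L K) =
      {x : ℝ | ∃ k : ℕ, 1 ≤ k ∧ ∃ F : MvPolynomial (Fin k) ℤ, F ≠ 0 ∧ x = mahler F} ∧
    (∀ (K : ℝ) (k : ℕ) (F : MvPolynomial (Fin k) ℤ), F ≠ 0 →
      (∀ Q : MvPolynomial (Fin k) ℤ, Irreducible Q → Q ∣ F →
        Q.totalDegree = 0 ∨ mahler Q = 1 ∨ ¬ Associated (reciprocal Q) Q) →
      Real.log (mahler F) ≤ K → mahler F ∈ L K) ∧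
    (∀ (K : ℝ) (k : ℕ) (F : MvPolynomial (Fin k) ℤ), 1 ≤ k → F ≠ 0 →
      ((∑ s ∈ F.support, |F.coeff s| : ℤ) : ℝ) ≤ Real.exp K → mahler F ∈ L K) ∧
    (∀ (K : ℝ) (k : ℕ) (F : MvPolynomial (Fin k) ℤ) (i : Fin k) (m : ℕ), F ≠ 0 →
      F.degreeOf i ≤ m → ¬ MvPolynomial.X i ∣ F →
      (∀ Q : MvPolynomial (Fin k) ℤ, Q ∣ F → Q.degreeOf i = 0 → IsUnit Q) →
      Real.log (mahler F) + m * Real.log 2 ≤ K → mahler F ∈ L K) := by
  refine ⟨Pool.Agent.H261R2.CM.closed_LL, fun K K' h => Pool.Agent.H261R2.CM.LL_mono h,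
    Pool.Agent.H261R2.CM.iUnion_LL, ?_, ?_, ?_⟩
  · intro K k F hF h hK
    exact Pool.Agent.H261R2.CM.LL_nonrecip F hF h K hK
  · intro K k F hk hF hK
    exact Pool.Agent.H261R2.CM.LL_length hk F hF K hK
  · intro K k F i m hF hm hX hprim hK
    exact Pool.Agent.H261R2.CM.LL_width F hF i m hm hX hprim K hK

end

end Pool.Agent.Results.MP_6d22ea_nt.ClosedExhaustion
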