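import Pool.Agent.H261R2.CM.I5

/-!
# Coprime pairs of bounded height form finitely many families

For every `K` and `ε > 0` there are finitely many pairs `(C, D)` of coprime integer polynomials in
several variables such that every pair `(A, B)` of coprime integer polynomials in one variable with
`∫ log max(|A|, |B|) ≤ K` satisfies `C(z^e) = Q A`, `D(z^e) = Q B` for one of the pairs `(C, D)`,
some exponents `e` and some `Q` with `M(Q) < 1 + ε`; moreover `M(A)`, `M(B)` and the integral are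
`ε`-close to those of `(C, D)`, and if `|A| = |B|` on the circle then `|C| = |D|` on the torus.
This applies to `B` the reciprocal of a polynomial `A` coprime to it, when the integral is
`log M(A)`.
-/

set_option autoImplicit false

namespace Pool.Agent.Results.MP_6d22ea_nt.FiniteFamilies

open Polynomial

noncomputable section

/-- Value of an integer polynomial in `k` variables at the torus point
`(exp (2 π i t_1), …, exp (2 π i t_k))`. -/
def value {k : ℕ} (F : MvPolynomial (Fin k) ℤ) (t : Fin k → ℝ) : ℂ :=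
  MvPolynomial.eval (fun j : Fin k => Complex.exp (2 * (Real.pi : ℂ) * Complex.I * ((t j : ℝ) : ℂ)))
    (MvPolynomial.map (Int.castRingHom ℂ) F)

/-- The Mahler measure of an integer polynomial in `k` variables. -/
def mahler {k : ℕ} (F : MvPolynomial (Fin k) ℤ) : ℝ :=
  Real.exp (∫ t in Set.Icc (0 : Fin k → ℝ) 1, Real.log ‖value F t‖)

/-- The integral of `log max(|F|, |G|)` over the torus. -/
def pairHeight {k : ℕ} (F G : MvPolynomial (Fin k) ℤ) : ℝ :=
  ∫ t in Set.Icc (0 : Fin k → ℝ) 1, Real.log (max ‖value F t‖ ‖value G t‖)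

/-- Value of an integer polynomial in one variable at the point `exp (2 π i t)`. -/
def value1 (A : ℤ[X]) (t : ℝ) : ℂ :=
  (A.map (Int.castRingHom ℂ)).eval (Complex.exp (2 * (Real.pi : ℂ) * Complex.I * (t : ℂ)))

/-- The Mahler measure of an integer polynomial in one variable. -/
def mahler1 (A : ℤ[X]) : ℝ := (A.map (Int.castRingHom ℂ)).mahlerMeasure

/-- The integral of `log max(|A|, |B|)` over the unit circle. -/
def pairHeight1 (A B : ℤ[X]) : ℝ :=
  ∫ t in (0:ℝ)..1, Real.log (max ‖value1 A t‖ ‖value1 B t‖)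

/-- The one-variable polynomial `F (z ^ (e 1), …, z ^ (e k))`. -/
def substitute {k : ℕ} (e : Fin k → ℕ) (F : MvPolynomial (Fin k) ℤ) : ℤ[X] :=
  MvPolynomial.aeval (fun i => (X : ℤ[X]) ^ (e i)) F

theorem result (K ε : ℝ) (hε : 0 < ε) :
    ∃ T : Finset (Σ k : ℕ, MvPolynomial (Fin k) ℤ × MvPolynomial (Fin k) ℤ),
      (∀ τ ∈ T, 1 ≤ τ.1 ∧ τ.2.1 ≠ 0 ∧ τ.2.2 ≠ 0 ∧ IsRelPrime τ.2.1 τ.2.2) ∧
      ∀ A B : ℤ[X], A ≠ 0 → B ≠ 0 → IsRelPrime A B → pairHeight1 A B ≤ K →
        ∃ τ ∈ T, ∃ (e : Fin τ.1 → ℕ) (Q : ℤ[X]), Q ≠ 0 ∧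
          substitute e τ.2.1 = Q * A ∧ substitute e τ.2.2 = Q * B ∧ mahler1 Q < 1 + ε ∧
          |mahler1 A - mahler τ.2.1| < ε ∧ |mahler1 B - mahler τ.2.2| < ε ∧
          |pairHeight1 A B - pairHeight τ.2.1 τ.2.2| < ε ∧
          ((∀ t : ℝ, ‖value1 A t‖ = ‖value1 B t‖) →
            ∀ t : Fin τ.1 → ℝ, ‖value τ.2.1 t‖ = ‖value τ.2.2 t‖) :=
  Pool.Agent.H261R2.CM.finite_structure_general K ε hε

end

end Pool.Agent.Results.MP_6d22ea_nt.FiniteFamilies
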