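import Pool.Agent.H261R2.CM.J4

/-!
# Boyd's conjecture for nonreciprocal polynomials

The set of Mahler measures of the nonzero integer polynomials, in any number of variables, without
nonconstant self-reciprocal irreducible factor of Mahler measure greater than one, is closed.
-/

set_option autoImplicit false

namespace Pool.Agent.Results.MP_6d22ea_nt.NonreciprocalClosed

noncomputable section

/-- The Mahler measure of an integer polynomial in `k` variables. -/
def mahler {k : ℕ} (F : MvPolynomial (Fin k) ℤ) : ℝ :=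
  Real.exp (∫ t in Set.Icc (0 : Fin k → ℝ) 1,
    Real.log ‖MvPolynomial.eval
      (fun j : Fin k => Complex.exp (2 * (Real.pi : ℂ) * Complex.I * ((t j : ℝ) : ℂ)))
      (MvPolynomial.map (Int.castRingHom ℂ) F)‖)

/-- The reciprocal polynomial `z_1^{d_1} ⋯ z_k^{d_k} F(1/z_1, …, 1/z_k)`, where `d_i` is the degree
of `F` in `z_i`. -/
def reciprocal {k : ℕ} (F : MvPolynomial (Fin k) ℤ) : MvPolynomial (Fin k) ℤ :=
  ∑ s ∈ F.support, MvPolynomial.monomial
    (Finsupp.equivFunOnFinite.symm fun i => F.degreeOf i - s i) (F.coeff s)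

theorem result :
    IsClosed {x : ℝ | ∃ k : ℕ, 1 ≤ k ∧ ∃ F : MvPolynomial (Fin k) ℤ, F ≠ 0 ∧
      (∀ Q : MvPolynomial (Fin k) ℤ, Irreducible Q → Q ∣ F →
        Q.totalDegree = 0 ∨ mahler Q = 1 ∨ ¬ Associated (reciprocal Q) Q) ∧ x = mahler F} :=
  Pool.Agent.H261R2.CM.closed_nonrecip

end

end Pool.Agent.Results.MP_6d22ea_nt.NonreciprocalClosed
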